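import Mathlib

set_option autoImplicit false

namespace Pool.Agent.H.MP_8027ba_an

open Filter Topology Set

noncomputable def r (n : ℕ) : ℝ := (1 / 16) ^ n

theorem r_pos (n : ℕ) : 0 < r n := by unfold r; positivity
theorem r_succ (n : ℕ) : r (n + 1) = r n / 16 := by unfold r; rw [pow_succ]; ring
theorem r_add (n k : ℕ) : r (n + k) = r n * (1 / 16) ^ k := by unfold r; rw [pow_add]
theorem r_anti {n m : ℕ} (h : n ≤ m) : r m ≤ r n :=
  pow_le_pow_of_le_one (by norm_num) (by norm_num) h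

theorem eq_of_small {a : ℝ} {n : ℕ} {c : ℝ} (h : ∀ k, |a| ≤ c * r (n + k)) : a = 0 := by
  have t : Tendsto (fun k => c * r (n + k)) atTop (𝓝 0) := by
    simp only [r_add]
    have := (tendsto_pow_atTop_nhds_zero_of_lt_one (r := (1/16:ℝ)) (by norm_num)
      (by norm_num)).const_mul (c * r n)
    simpa [mul_assoc] using this
  exact abs_nonpos_iff.1 (ge_of_tendsto' t h)

noncomputable def t (n : ℕ) : ℝ := 15 / 14 * r n

noncomputable def dg (b : Bool) (n : ℕ) : ℝ := if b then t n else 0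

theorem dg_nn (b : Bool) (n : ℕ) : 0 ≤ dg b n := by
  have := r_pos n; unfold dg t; split_ifs <;> positivity
theorem dg_le (b : Bool) (n : ℕ) : dg b n ≤ t n := by
  have := r_pos n; unfold dg t; split_ifs <;> linarith

theorem hs_t (n : ℕ) : HasSum (fun j => t (n + j)) (8 / 7 * r n) := by
  have := (hasSum_geometric_of_lt_one (r := (1/16:ℝ)) (by norm_num) (by norm_num)).mul_left
    (15 / 14 * r n)
  rw [show 15 / 14 * r n * (1 - 1 / 16)⁻¹ = 8 / 7 * r n by ring] at this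
  simpa only [t, r_add, mul_assoc] using this

theorem sm_dg (n : ℕ) (δ : ℕ → Bool) : Summable fun j => dg (δ j) (n + j) :=
  Summable.of_nonneg_of_le (fun _ => dg_nn _ _) (fun _ => dg_le _ _) (hs_t n).summable

noncomputable def val (n : ℕ) (δ : ℕ → Bool) : ℝ := ∑' j, dg (δ j) (n + j)

theorem val_nn (n : ℕ) (δ : ℕ → Bool) : 0 ≤ val n δ := tsum_nonneg fun _ => dg_nn _ _
theorem val_le (n : ℕ) (δ : ℕ → Bool) : val n δ ≤ 8 / 7 * r n :=
  hasSum_le (fun _ => dg_le _ _) (sm_dg n δ).hasSum (hs_t n)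

theorem val_succ (n : ℕ) (δ : ℕ → Bool) :
    val n δ = dg (δ 0) n + val (n + 1) (fun j => δ (j + 1)) := by
  unfold val
  rw [(sm_dg n δ).tsum_eq_zero_add]
  simp only [add_zero, add_assoc, add_comm 1]

def cons (b : Bool) (δ : ℕ → Bool) : ℕ → Bool
  | 0 => b
  | j + 1 => δ j

theorem val_cons (n : ℕ) (b : Bool) (δ : ℕ → Bool) :
    val n (cons b δ) = dg b n + val (n + 1) δ := val_succ n _

theorem val_cont (n : ℕ) : Continuous (val n) :=
  continuous_tsum (fun j => (continuous_of_discreteTopology (f := fun b => dg b (n + j))).comp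
    (continuous_apply j)) (hs_t n).summable
    fun j δ => by rw [Real.norm_of_nonneg (dg_nn _ _)]; exact dg_le _ _

def Good (Z : Set ℝ) (n : ℕ) (z : ℝ) : Prop := ∃ δ₀, ∀ δ, z - val n δ₀ + val n δ ∈ Z

def Ab (Z : Set ℝ) (n : ℕ) (z : ℝ) : Prop :=
  ∃ b : Bool, ∀ s, |s| ≤ r n / 14 → z - dg b n + dg (!b) n + s ∈ Z

theorem ab_of {Z : Set ℝ} {n : ℕ} {z α β : ℝ} (h : Icc α (α + β) ⊆ Z) (hβ : 3 * r n ≤ β)
    (h1 : α - r n ≤ z) (h2 : z ≤ α + β + r n) : Ab Z n z := by
  have := r_pos n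
  by_cases c : z ≤ α + β / 2
  · refine ⟨false, fun s hs => h ?_⟩
    rw [abs_le] at hs
    simp only [dg, t, Bool.not_false, if_true, Bool.false_eq_true, if_false]
    constructor <;> linarith [hs.1, hs.2]
  · refine ⟨true, fun s hs => h ?_⟩
    rw [abs_le] at hs
    simp only [dg, t, Bool.not_true, if_true, Bool.false_eq_true, if_false]
    constructor <;> linarith [hs.1, hs.2]

theorem val_diff (n : ℕ) (δ δ' : ℕ → Bool) : |val n δ - val n δ'| ≤ 8 / 7 * r n := by
  rw [abs_le]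
  constructor <;> linarith [val_nn n δ, val_nn n δ', val_le n δ, val_le n δ']

theorem good_step {Z : Set ℝ} {n : ℕ} {z : ℝ} (h1 : Ab Z n z) (h2 : Good Z (n + 1) z) :
    Good Z n z := by
  obtain ⟨b, hb⟩ := h1
  obtain ⟨δ₀, h0⟩ := h2
  refine ⟨cons b δ₀, fun δ => ?_⟩
  rw [val_cons, val_succ n δ]
  by_cases e : δ 0 = b
  · have := h0 (fun j => δ (j + 1))
    rw [e]; rwa [show z - (dg b n + val (n + 1) δ₀) + (dg b n + val (n + 1) fun j => δ (j + 1))
      = z - val (n + 1) δ₀ + val (n + 1) fun j => δ (j + 1) by ring]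
  · have e' : δ 0 = !b := by revert e; cases δ 0 <;> cases b <;> simp
    have := hb _ ((val_diff (n + 1) (fun j => δ (j + 1)) δ₀).trans (by rw [r_succ]; linarith))
    rw [e']
    rwa [show z - (dg b n + val (n + 1) δ₀) + (dg (!b) n + val (n + 1) fun j => δ (j + 1))
      = z - dg b n + dg (!b) n + (val (n + 1) (fun j => δ (j + 1)) - val (n + 1) δ₀) by ring]

theorem good_all {Z : Set ℝ} {n : ℕ} {z : ℝ} (hz : z ∈ Z) (h : ∀ j, n ≤ j → Ab Z j z) :
    Good Z n z := by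
  classical
  have h' : ∀ j, ∃ b : Bool, n ≤ j → ∀ s, |s| ≤ r j / 14 → z - dg b j + dg (!b) j + s ∈ Z :=
    fun j => by
      by_cases c : n ≤ j
      · obtain ⟨b, hb⟩ := h j c; exact ⟨b, fun _ => hb⟩
      · exact ⟨true, fun k => absurd k c⟩
  choose b hb using h'
  have key : ∀ k m, n ≤ m → ∀ δ, z - val m (fun j => b (m + j)) + val m δ ∈ Z ∨
      |val m δ - val m (fun j => b (m + j))| ≤ 8 / 7 * r (m + k) := by
    intro k
    induction k with
    | zero => intro m _ δ; exact Or.inr (val_diff _ _ _)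
    | succ k ih =>
      intro m hm δ
      have e1 : (fun j => b (m + (j + 1))) = fun j => b (m + 1 + j) := by
        funext j; congr 1; omega
      rw [val_succ m δ, val_succ m (fun j => b (m + j))]
      simp only [add_zero, e1]
      by_cases e : δ 0 = b m
      · rw [e]
        rcases ih (m + 1) (by omega) (fun j => δ (j + 1)) with q | q
        · left
          rwa [show z - (dg (b m) m + val (m + 1) fun j => b (m + 1 + j))
            + (dg (b m) m + val (m + 1) fun j => δ (j + 1))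
            = z - (val (m + 1) fun j => b (m + 1 + j)) + val (m + 1) fun j => δ (j + 1) by ring]
        · right
          rw [add_sub_add_left_eq_sub, show m + (k + 1) = m + 1 + k by omega]; exact q
      · left
        have e' : δ 0 = !b m := by revert e; cases δ 0 <;> cases b m <;> simp
        have := hb m hm _ ((val_diff (m + 1) (fun j => δ (j + 1)) (fun j => b (m + 1 + j))).trans
          (by rw [r_succ]; linarith))
        rw [e']
        rwa [show z - (dg (b m) m + val (m + 1) fun j => b (m + 1 + j))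
            + (dg (!b m) m + val (m + 1) fun j => δ (j + 1))
            = z - dg (b m) m + dg (!b m) m + ((val (m + 1) fun j => δ (j + 1))
              - val (m + 1) fun j => b (m + 1 + j)) by ring]
  refine ⟨fun j => b (n + j), fun δ => ?_⟩
  by_contra c
  have := eq_of_small fun k => (key k n le_rfl δ).resolve_left c
  apply c
  rwa [sub_eq_zero.1 this, sub_add_cancel]

def PP (P : Set ℝ) : Prop :=
  P.Nonempty ∧ IsCompact P ∧ ∀ x ∈ P, ∀ ε > 0, ∃ y ∈ P, y ≠ x ∧ |y - x| < ε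

def NC (P : Set ℝ) : Prop := ∃ a b, a < b ∧ Icc a b ⊆ P

theorem ppL {P : Set ℝ} (h : PP P) {u : ℝ} (h1 : ∃ a ∈ P, a ≤ u)
    (h2 : u ∈ P → ∃ η > 0, Icc (u - η) u ⊆ P) : PP (P ∩ Iic u) := by
  refine ⟨h1, h.2.1.inter_right isClosed_Iic, fun x hx ε hε => ?_⟩
  rcases eq_or_lt_of_le (show x ≤ u from hx.2) with e | e
  · subst e
    obtain ⟨η, η0, hη⟩ := h2 hx.1
    have m : 0 < min η (ε / 2) := lt_min η0 (by linarith)
    have m1 := min_le_left η (ε / 2)
    have m2 := min_le_right η (ε / 2)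
    refine ⟨x - min η (ε / 2), ⟨hη ⟨by linarith, by linarith⟩, mem_Iic.2 (by linarith)⟩,
      ne_of_lt (by linarith), ?_⟩
    rw [abs_lt]; constructor <;> linarith
  · obtain ⟨y, hy, y1, y2⟩ := h.2.2 x hx.1 (min ε (u - x)) (lt_min hε (by linarith))
    have := (abs_lt.1 (y2.trans_le (min_le_right _ _))).2
    exact ⟨y, ⟨hy, mem_Iic.2 (by linarith)⟩, y1, y2.trans_le (min_le_left _ _)⟩

theorem ppR {P : Set ℝ} (h : PP P) {u : ℝ} (h1 : ∃ a ∈ P, u ≤ a)
    (h2 : u ∈ P → ∃ η > 0, Icc u (u + η) ⊆ P) : PP (P ∩ Ici u) := by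
  refine ⟨h1, h.2.1.inter_right isClosed_Ici, fun x hx ε hε => ?_⟩
  rcases eq_or_lt_of_le (show u ≤ x from hx.2) with e | e
  · subst e
    obtain ⟨η, η0, hη⟩ := h2 hx.1
    have m : 0 < min η (ε / 2) := lt_min η0 (by linarith)
    have m1 := min_le_left η (ε / 2)
    have m2 := min_le_right η (ε / 2)
    refine ⟨u + min η (ε / 2), ⟨hη ⟨by linarith, by linarith⟩, mem_Ici.2 (by linarith)⟩,
      ne_of_gt (by linarith), ?_⟩
    rw [abs_lt]; constructor <;> linarith
  · obtain ⟨y, hy, y1, y2⟩ := h.2.2 x hx.1 (min ε (x - u)) (lt_min hε (by linarith))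
    have := (abs_lt.1 (y2.trans_le (min_le_right _ _))).1
    exact ⟨y, ⟨hy, mem_Ici.2 (by linarith)⟩, y1, y2.trans_le (min_le_left _ _)⟩

def Wd (P : Set ℝ) (d : ℝ) : Prop := ∀ x ∈ P, ∀ y ∈ P, y - x ≤ d

theorem mid_int {P : Set ℝ} (h : PP P) {a b : ℝ} (hab : a < b) (hs : Icc a b ⊆ P) :
    PP (P ∩ Iic (a + (b - a) / 3)) ∧ PP (P ∩ Ici (b - (b - a) / 3)) ∧
      Icc (a + (b - a) / 3) (b - (b - a) / 3) ⊆ P :=
  ⟨ppL h ⟨a, hs ⟨le_rfl, hab.le⟩, by linarith⟩ fun _ => ⟨(b - a) / 3, by linarith,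
      (Icc_subset_Icc (by linarith) (by linarith)).trans hs⟩,
    ppR h ⟨b, hs ⟨hab.le, le_rfl⟩, by linarith⟩ fun _ => ⟨(b - a) / 3, by linarith,
      (Icc_subset_Icc (by linarith) (by linarith)).trans hs⟩,
    (Icc_subset_Icc (by linarith) (by linarith)).trans hs⟩

theorem exists_step (P : Set ℝ) (n : ℕ) : ∃ u v : ℝ, u < v ∧ (PP P → PP (P ∩ Iic u) ∧
    PP (P ∩ Ici v) ∧ ((∀ y ∈ P, y ≤ u ∨ v ≤ y) ∨ Icc u v ⊆ P) ∧
    (NC P → Even n → Icc u v ⊆ P) ∧
    (¬ Even n ∨ ¬ NC P → ∀ d, Wd P d → Wd (P ∩ Iic u) (2 / 3 * d) ∧ Wd (P ∩ Ici v) (2 / 3 * d))) := by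
  by_cases h : PP P
  swap
  · exact ⟨0, 1, one_pos, fun k => absurd k h⟩
  by_cases c : NC P ∧ Even n
  · obtain ⟨a, b, hab, hs⟩ := c.1
    obtain ⟨m1, m2, m3⟩ := mid_int h hab hs
    exact ⟨_, _, by linarith, fun _ => ⟨m1, m2, Or.inr m3, fun _ _ => m3,
      fun k => by rcases k with k | k; exacts [absurd c.2 k, absurd c.1 k]⟩⟩
  obtain ⟨a, ha, ha'⟩ := h.2.1.exists_isLeast h.1
  obtain ⟨b, hb, hb'⟩ := h.2.1.exists_isGreatest h.1
  have hab : a < b := by
    obtain ⟨y, hy, y1, -⟩ := h.2.2 a ha 1 one_pos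
    exact lt_of_lt_of_le (lt_of_le_of_ne (ha' hy) y1.symm) (hb' hy)
  have wd : ∀ u v, u ≤ b - (b - a) / 3 → a + (b - a) / 3 ≤ v → ∀ d, Wd P d →
      Wd (P ∩ Iic u) (2 / 3 * d) ∧ Wd (P ∩ Ici v) (2 / 3 * d) := by
    intro u v hu hv d hd
    have := hd a ha b hb
    refine ⟨fun x hx y hy => ?_, fun x hx y hy => ?_⟩
    · have := ha' hx.1; have : y ≤ u := hy.2; linarith
    · have := hb' hy.1; have : v ≤ x := hx.2; linarith
  by_cases s : Icc (a + (b - a) / 3) (b - (b - a) / 3) ⊆ P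
  · obtain ⟨m1, m2, m3⟩ := mid_int h (by linarith) s
    exact ⟨_, _, by linarith, fun _ => ⟨m1, m2, Or.inr m3, fun _ _ => m3,
      fun _ => wd _ _ (by linarith) (by linarith)⟩⟩
  · obtain ⟨m, hm, hm'⟩ := not_subset.1 s
    obtain ⟨ε, ε0, hε⟩ := Metric.isOpen_iff.1 h.2.1.isClosed.isOpen_compl m hm'
    have out : ∀ y ∈ P, y ≤ m - ε ∨ m + ε ≤ y := fun y hy => by
      by_contra k
      push Not at k
      exact hε (by rw [Real.ball_eq_Ioo]; exact k) hy
    refine ⟨m - ε / 2, m + ε / 2, by linarith, fun _ => ⟨ppL h ⟨a, ha, ?_⟩ fun k => ?_,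
      ppR h ⟨b, hb, ?_⟩ fun k => ?_, Or.inl fun y hy => ?_, fun k1 k2 => absurd ⟨k1, k2⟩ c,
      fun _ => wd _ _ (by linarith [hm.2]) (by linarith [hm.1])⟩⟩
    · rcases out a ha with q | q <;> linarith [hm.1]
    · rcases out _ k with q | q <;> linarith
    · rcases out b hb with q | q <;> linarith [hm.2]
    · rcases out _ k with q | q <;> linarith
    · rcases out y hy with q | q
      · left; linarith
      · right; linarith

end Pool.Agent.H.MP_8027ba_an
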