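import Pool.Agent.H.MP_8027ba_an.A

set_option autoImplicit false

namespace Pool.Agent.H.MP_8027ba_an

open Filter Topology Set

noncomputable def U (P : Set ℝ) (n : ℕ) : ℝ := (exists_step P n).choose
noncomputable def V (P : Set ℝ) (n : ℕ) : ℝ := (exists_step P n).choose_spec.choose
def L (P : Set ℝ) (n : ℕ) : Set ℝ := P ∩ Iic (U P n)
def R (P : Set ℝ) (n : ℕ) : Set ℝ := P ∩ Ici (V P n)

theorem UV (P : Set ℝ) (n : ℕ) : U P n < V P n := (exists_step P n).choose_spec.choose_spec.1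

theorem spec {P : Set ℝ} (h : PP P) (n : ℕ) : PP (L P n) ∧ PP (R P n) ∧
    ((∀ y ∈ P, y ≤ U P n ∨ V P n ≤ y) ∨ Icc (U P n) (V P n) ⊆ P) ∧
    (NC P → Even n → Icc (U P n) (V P n) ⊆ P) ∧
    (¬ Even n ∨ ¬ NC P → ∀ d, Wd P d → Wd (L P n) (2 / 3 * d) ∧ Wd (R P n) (2 / 3 * d)) :=
  (exists_step P n).choose_spec.choose_spec.2 h

open Classical in
noncomputable def w (P : Set ℝ) (n : ℕ) : ℝ :=
  if NC P then (if Even n then 3 * r n else 3 * r (n + 1)) else r n

theorem w_pos (P : Set ℝ) (n : ℕ) : 0 < w P n := by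
  have := r_pos n; have := r_pos (n + 1); unfold w; split_ifs <;> positivity
theorem w_le (P : Set ℝ) (n : ℕ) : w P n ≤ 3 * r n := by
  have := r_pos n; have := r_succ n; unfold w; split_ifs <;> linarith
theorem w_ge {P : Set ℝ} (h : NC P) (n : ℕ) : 3 * r (n + 1) ≤ w P n := by
  have := r_pos n; have := r_succ n; unfold w; rw [if_pos h]; split_ifs <;> linarith

noncomputable def ramp (u v x : ℝ) : ℝ := max 0 (min 1 ((x - u) / (v - u)))

theorem ramp_nn (u v x : ℝ) : 0 ≤ ramp u v x := le_max_left _ _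
theorem ramp_le (u v x : ℝ) : ramp u v x ≤ 1 := max_le zero_le_one (min_le_left _ _)
theorem ramp_cont (u v : ℝ) : Continuous (ramp u v) := by unfold ramp; fun_prop
theorem ramp_mono {u v : ℝ} (h : u < v) : Monotone (ramp u v) := fun x y hxy =>
  max_le_max le_rfl (min_le_min le_rfl (div_le_div_of_nonneg_right (by linarith) (by linarith)))
theorem ramp_zero {u v x : ℝ} (h : u < v) (hx : x ≤ u) : ramp u v x = 0 :=
  max_eq_left ((min_le_right _ _).trans (div_nonpos_of_nonpos_of_nonneg (by linarith) (by linarith)))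
theorem ramp_one {u v x : ℝ} (h : u < v) (hx : v ≤ x) : ramp u v x = 1 := by
  unfold ramp
  rw [min_eq_left ((one_le_div (by linarith)).2 (by linarith))]; simp
theorem ramp_mid {u v x : ℝ} (h : u < v) (h1 : u ≤ x) (h2 : x ≤ v) :
    ramp u v x = (x - u) / (v - u) := by
  unfold ramp
  rw [min_eq_right ((div_le_one (by linarith)).2 (by linarith)),
    max_eq_right (div_nonneg (by linarith) (by linarith))]
theorem ramp_lt {u v x y : ℝ} (h : u < v) (hxy : x < y) (h1 : x < v) (h2 : u < y) :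
    ramp u v x < ramp u v y := by
  have a : ramp u v x ≤ ramp u v (max x u) := ramp_mono h (le_max_left _ _)
  have b : ramp u v (min y v) ≤ ramp u v y := ramp_mono h (min_le_left _ _)
  have c : max x u < min y v := by
    rw [max_lt_iff, lt_min_iff, lt_min_iff]; exact ⟨⟨hxy, h1⟩, h2, h⟩
  rw [ramp_mid h (le_max_right _ _) (c.le.trans (min_le_right _ _))] at a
  rw [ramp_mid h ((le_max_right _ _).trans c.le) (min_le_right _ _)] at b
  exact a.trans_lt ((div_lt_div_of_pos_right (by linarith) (by linarith)).trans_le b)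

noncomputable def G : ℕ → Set ℝ → ℕ → ℝ → ℝ
  | 0, P, n, x => w P n * ramp (U P n) (V P n) x
  | k + 1, P, n, x => G k (L P n) (n + 1) x + G k (R P n) (n + 1) x

theorem G_bd (k : ℕ) : ∀ P n x, 0 ≤ G k P n x ∧ G k P n x ≤ 3 * r n * (1 / 8) ^ k := by
  induction k with
  | zero =>
    intro P n x
    have := w_pos P n; have := w_le P n
    have := ramp_nn (U P n) (V P n) x; have := ramp_le (U P n) (V P n) x
    simp only [G, pow_zero, mul_one]
    constructor <;> nlinarith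
  | succ k ih =>
    intro P n x
    have a := ih (L P n) (n + 1) x
    have b := ih (R P n) (n + 1) x
    rw [r_succ] at a b
    simp only [G, pow_succ]
    constructor <;> linarith [a.1, a.2, b.1, b.2]

theorem G_cont (k : ℕ) : ∀ P n, Continuous (G k P n) := by
  induction k with
  | zero => intro P n; exact continuous_const.mul (ramp_cont _ _)
  | succ k ih => intro P n; exact (ih _ _).add (ih _ _)

theorem G_mono (k : ℕ) : ∀ P n, Monotone (G k P n) := by
  induction k with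
  | zero => intro P n x y h; exact mul_le_mul_of_nonneg_left (ramp_mono (UV P n) h) (w_pos P n).le
  | succ k ih => intro P n x y h; exact add_le_add (ih _ _ h) (ih _ _ h)

theorem G_low (k : ℕ) : ∀ P n x, PP P → (∀ p ∈ P, x ≤ p) → G k P n x = 0 := by
  induction k with
  | zero =>
    intro P n x h hx
    obtain ⟨p, hp⟩ := (spec h n).1.1
    simp only [G]; rw [ramp_zero (UV P n) ((hx p hp.1).trans hp.2), mul_zero]
  | succ k ih =>
    intro P n x h hx
    simp only [G]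
    rw [ih _ _ x (spec h n).1 fun p hp => hx p hp.1, ih _ _ x (spec h n).2.1 fun p hp => hx p hp.1,
      add_zero]

theorem G_up (k : ℕ) : ∀ P n x y, PP P → (∀ p ∈ P, p ≤ x) → (∀ p ∈ P, p ≤ y) →
    G k P n x = G k P n y := by
  induction k with
  | zero =>
    intro P n x y h hx hy
    obtain ⟨p, hp⟩ := (spec h n).2.1.1
    simp only [G]
    rw [ramp_one (UV P n) (le_trans hp.2 (hx p hp.1)), ramp_one (UV P n) (le_trans hp.2 (hy p hp.1))]
  | succ k ih =>
    intro P n x y h hx hy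
    simp only [G]
    rw [ih _ _ x y (spec h n).1 (fun p hp => hx p hp.1) (fun p hp => hy p hp.1),
      ih _ _ x y (spec h n).2.1 (fun p hp => hx p hp.1) (fun p hp => hy p hp.1)]

theorem ncL {P : Set ℝ} (h : ¬ NC P) (n : ℕ) : ¬ NC (L P n) :=
  fun ⟨a, b, h1, h2⟩ => h ⟨a, b, h1, h2.trans inter_subset_left⟩
theorem ncR {P : Set ℝ} (h : ¬ NC P) (n : ℕ) : ¬ NC (R P n) :=
  fun ⟨a, b, h1, h2⟩ => h ⟨a, b, h1, h2.trans inter_subset_left⟩

theorem G_can (k : ℕ) : ∀ P n x, PP P → ¬ NC P → (∀ p ∈ P, p ≤ x) →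
    G k P n x = r n * (1 / 8) ^ k := by
  induction k with
  | zero =>
    intro P n x h c hx
    obtain ⟨p, hp⟩ := (spec h n).2.1.1
    simp only [G, w]
    rw [ramp_one (UV P n) (le_trans hp.2 (hx p hp.1)), if_neg c, pow_zero]
  | succ k ih =>
    intro P n x h c hx
    simp only [G]
    rw [ih _ _ x (spec h n).1 (ncL c n) (fun p hp => hx p hp.1),
      ih _ _ x (spec h n).2.1 (ncR c n) (fun p hp => hx p hp.1), r_succ, pow_succ]
    ring

theorem hs8 (c : ℝ) : HasSum (fun k : ℕ => c * (1 / 8) ^ k) (8 / 7 * c) := by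
  have := (hasSum_geometric_of_lt_one (r := (1/8:ℝ)) (by norm_num) (by norm_num)).mul_left c
  rwa [show c * (1 - 1 / 8)⁻¹ = 8 / 7 * c by ring] at this

theorem G_sm (P : Set ℝ) (n : ℕ) (x : ℝ) : Summable fun k => G k P n x :=
  Summable.of_nonneg_of_le (fun k => (G_bd k P n x).1) (fun k => (G_bd k P n x).2) (hs8 _).summable

noncomputable def h (P : Set ℝ) (n : ℕ) (x : ℝ) : ℝ := ∑' k, G k P n x

theorem h_nn (P : Set ℝ) (n : ℕ) (x : ℝ) : 0 ≤ h P n x := tsum_nonneg fun k => (G_bd k P n x).1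
theorem h_le (P : Set ℝ) (n : ℕ) (x : ℝ) : h P n x ≤ 24 / 7 * r n :=
  (hasSum_le (fun k => (G_bd k P n x).2) (G_sm P n x).hasSum (hs8 _)).trans (le_of_eq (by ring))
theorem h_cont (P : Set ℝ) (n : ℕ) : Continuous (h P n) :=
  continuous_tsum (fun k => G_cont k P n) (hs8 (3 * r n)).summable fun k x => by
    rw [Real.norm_of_nonneg (G_bd k P n x).1]; exact (G_bd k P n x).2
theorem h_mono (P : Set ℝ) (n : ℕ) : Monotone (h P n) := fun x y hxy =>
  (G_sm P n x).tsum_le_tsum (fun k => G_mono k P n hxy) (G_sm P n y)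
theorem h_rec (P : Set ℝ) (n : ℕ) (x : ℝ) : h P n x =
    h (L P n) (n + 1) x + w P n * ramp (U P n) (V P n) x + h (R P n) (n + 1) x := by
  unfold h
  rw [(G_sm P n x).tsum_eq_zero_add]
  simp only [G]
  rw [(G_sm _ _ x).tsum_add (G_sm _ _ x)]; ring
theorem h_low {P : Set ℝ} (hP : PP P) (n : ℕ) {x : ℝ} (hx : ∀ p ∈ P, x ≤ p) : h P n x = 0 := by
  unfold h; simp only [G_low _ P n x hP hx, tsum_zero]
theorem h_up {P : Set ℝ} (hP : PP P) (n : ℕ) {x y : ℝ} (hx : ∀ p ∈ P, p ≤ x)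
    (hy : ∀ p ∈ P, p ≤ y) : h P n x = h P n y := by
  unfold h; simp only [fun k => G_up k P n x y hP hx hy]
theorem h_can {P : Set ℝ} (hP : PP P) (c : ¬ NC P) (n : ℕ) {x : ℝ} (hx : ∀ p ∈ P, p ≤ x) :
    h P n x = 8 / 7 * r n := by
  unfold h; simp only [G_can _ P n x hP c hx]; exact (hs8 _).tsum_eq

theorem h_L {P : Set ℝ} (hP : PP P) (n : ℕ) {y : ℝ} (hy : y ≤ U P n) :
    h P n y = h (L P n) (n + 1) y := by
  rw [h_rec, ramp_zero (UV P n) hy, h_low (spec hP n).2.1 (n + 1)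
    fun p hp => hy.trans ((UV P n).le.trans hp.2)]; ring
theorem h_R {P : Set ℝ} (hP : PP P) (n : ℕ) {y : ℝ} (hy : V P n ≤ y) :
    h P n y = h (L P n) (n + 1) (U P n) + w P n + h (R P n) (n + 1) y := by
  rw [h_rec, ramp_one (UV P n) hy, h_up (spec hP n).1 (n + 1) (y := U P n)
    (fun p hp => le_trans hp.2 ((UV P n).le.trans hy)) fun p hp => hp.2]; ring
theorem h_M {P : Set ℝ} (hP : PP P) (n : ℕ) {y : ℝ} (h1 : U P n ≤ y) (h2 : y ≤ V P n) :
    h P n y = h (L P n) (n + 1) (U P n) + w P n * ((y - U P n) / (V P n - U P n)) := by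
  rw [h_rec, ramp_mid (UV P n) h1 h2, h_up (spec hP n).1 (n + 1) (y := U P n)
    (fun p hp => le_trans hp.2 h1) (fun p hp => hp.2), h_low (spec hP n).2.1 (n + 1)
    fun p hp => h2.trans hp.2]; ring

theorem h_odd {P : Set ℝ} (c : NC P) {n : ℕ} (hn : ¬ Even n) (y : ℝ) : h P n y ≤ r n := by
  have a := h_le (L P n) (n + 1) y
  have b := h_le (R P n) (n + 1) y
  have e : w P n = 3 * r (n + 1) := by unfold w; rw [if_pos c, if_neg hn]
  have := ramp_le (U P n) (V P n) y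
  have := r_pos (n + 1)
  rw [h_rec, e]
  have := r_succ n
  nlinarith

theorem sep1 {P : Set ℝ} (hP : PP P) (n : ℕ) {x y : ℝ} (hx : x ∈ P) (hy : y ∈ P) (hxy : x < y)
    (e : h P n y ≤ h P n x) : ∃ Q, PP Q ∧ x ∈ Q ∧ y ∈ Q ∧ h Q (n + 1) y ≤ h Q (n + 1) x ∧
      ∀ d, Wd P d → Wd Q d ∧ (¬ Even n → Wd Q (2 / 3 * d)) := by
  by_cases c1 : y ≤ U P n
  · refine ⟨L P n, (spec hP n).1, ⟨hx, hxy.le.trans c1⟩, ⟨hy, c1⟩, ?_, fun d hd =>
      ⟨fun a ha b hb => hd a ha.1 b hb.1, fun k => ((spec hP n).2.2.2.2 (Or.inl k) d hd).1⟩⟩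
    rwa [h_L hP n c1, h_L hP n (hxy.le.trans c1)] at e
  by_cases c2 : V P n ≤ x
  · refine ⟨R P n, (spec hP n).2.1, ⟨hx, c2⟩, ⟨hy, c2.trans hxy.le⟩, ?_, fun d hd =>
      ⟨fun a ha b hb => hd a ha.1 b hb.1, fun k => ((spec hP n).2.2.2.2 (Or.inl k) d hd).2⟩⟩
    rw [h_R hP n c2, h_R hP n (c2.trans hxy.le)] at e; linarith
  exfalso
  have a := mul_lt_mul_of_pos_left (ramp_lt (UV P n) hxy (not_le.1 c2) (not_le.1 c1)) (w_pos P n)
  rw [h_rec P n x, h_rec P n y] at e
  linarith [h_mono (L P n) (n + 1) hxy.le, h_mono (R P n) (n + 1) hxy.le]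

theorem h_strict {P : Set ℝ} (hP : PP P) (n : ℕ) {x y : ℝ} (hx : x ∈ P) (hy : y ∈ P)
    (hxy : x < y) : h P n x < h P n y := by
  have key : ∀ k : ℕ, ∀ P n d, PP P → x ∈ P → y ∈ P → h P n y ≤ h P n x → Wd P d →
      y - x ≤ (2 / 3) ^ k * d := by
    intro k
    induction k with
    | zero => intro P n d _ hx hy _ hd; simpa using hd x hx y hy
    | succ k ih =>
      intro P n d hP hx hy e hd
      obtain ⟨Q, q1, q2, q3, q4, q5⟩ := sep1 hP n hx hy hxy e
      obtain ⟨S, s1, s2, s3, s4, s5⟩ := sep1 q1 (n + 1) q2 q3 hxy q4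
      have : Wd S (2 / 3 * d) := by
        by_cases c : Even n
        · exact (s5 d (q5 d hd).1).2 (by rw [Nat.even_add_one]; exact not_not.2 c)
        · exact (s5 _ ((q5 d hd).2 c)).1
      have := ih S _ _ s1 s2 s3 s4 this
      rw [pow_succ]; linarith
  by_contra e
  obtain ⟨a, ha, ha'⟩ := hP.2.1.exists_isLeast hP.1
  obtain ⟨b, hb, hb'⟩ := hP.2.1.exists_isGreatest hP.1
  have t := (tendsto_pow_atTop_nhds_zero_of_lt_one (r := (2/3:ℝ)) (by norm_num)
    (by norm_num)).mul_const (b - a)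
  rw [zero_mul] at t
  have := ge_of_tendsto' t fun k => key k P n (b - a) hP hx hy (not_lt.1 e)
    fun p hp q hq => by linarith [ha' hp, hb' hq]
  linarith

end Pool.Agent.H.MP_8027ba_an
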