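import Pool.Agent.H.MP_8027ba_an.B

set_option autoImplicit false

namespace Pool.Agent.H.MP_8027ba_an

open Filter Topology Set

theorem gap {P : Set ℝ} (hP : PP P) (c : ¬ NC P) (n : ℕ) : ∀ y ∈ P, y ≤ U P n ∨ V P n ≤ y :=
  (spec hP n).2.2.1.resolve_right fun k => c ⟨_, _, UV P n, k⟩

theorem h_Rc {P : Set ℝ} (hP : PP P) (c : ¬ NC P) (n : ℕ) {y : ℝ} (hy : V P n ≤ y) :
    h P n y = dg true n + h (R P n) (n + 1) y := by
  rw [h_R hP n hy, h_can (spec hP n).1 (ncL c n) (n + 1) fun p hp => hp.2]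
  simp only [w, if_neg c, dg, t, if_true, r_succ]; ring

theorem hv0 (P : Set ℝ) (n : ℕ) (y : ℝ) (δ : ℕ → Bool) : |h P n y - val n δ| ≤ 4 * r n := by
  rw [abs_le]
  constructor <;> linarith [h_nn P n y, h_le P n y, val_nn n δ, val_le n δ, r_pos n]

theorem can1 {P : Set ℝ} (hP : PP P) (c : ¬ NC P) (n : ℕ) (δ : ℕ → Bool) :
    ∃ y ∈ P, h P n y = val n δ := by
  have key : ∀ k : ℕ, ∀ P n δ, PP P → ¬ NC P → ∃ y ∈ P, |h P n y - val n δ| ≤ 4 * r (n + k) := by
    intro k
    induction k with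
    | zero => intro P n δ hP _; obtain ⟨y, hy⟩ := hP.1; exact ⟨y, hy, hv0 _ _ _ _⟩
    | succ k ih =>
      intro P n δ hP c
      rw [val_succ, show n + (k + 1) = n + 1 + k by omega]
      cases δ 0
      · obtain ⟨y, hy, e⟩ := ih _ (n + 1) (fun j => δ (j + 1)) (spec hP n).1 (ncL c n)
        refine ⟨y, hy.1, ?_⟩
        rw [h_L hP n hy.2]; simpa [dg] using e
      · obtain ⟨y, hy, e⟩ := ih _ (n + 1) (fun j => δ (j + 1)) (spec hP n).2.1 (ncR c n)
        refine ⟨y, hy.1, ?_⟩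
        rw [h_Rc hP c n hy.2, add_sub_add_left_eq_sub]; exact e
  obtain ⟨y, hy, m⟩ := hP.2.1.exists_isMinOn hP.1
    (f := fun y => |h P n y - val n δ|) ((h_cont P n).sub continuous_const).abs.continuousOn
  refine ⟨y, hy, sub_eq_zero.1 (eq_of_small (n := n) (c := 4) fun k => ?_)⟩
  obtain ⟨z, hz, e⟩ := key k P n δ hP c
  exact le_trans (m hz) e

theorem can2 {P : Set ℝ} (hP : PP P) (c : ¬ NC P) (n : ℕ) {y : ℝ} (hy : y ∈ P) :
    ∃ δ, h P n y = val n δ := by
  have key : ∀ k : ℕ, ∀ P n, PP P → ¬ NC P → y ∈ P →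
      ∃ δ, |h P n y - val n δ| ≤ 4 * r (n + k) := by
    intro k
    induction k with
    | zero => intro P n _ _ _; exact ⟨fun _ => false, hv0 _ _ _ _⟩
    | succ k ih =>
      intro P n hP c hy
      rw [show n + (k + 1) = n + 1 + k by omega]
      rcases gap hP c n y hy with q | q
      · obtain ⟨δ, e⟩ := ih _ (n + 1) (spec hP n).1 (ncL c n) ⟨hy, q⟩
        refine ⟨cons false δ, ?_⟩
        rw [h_L hP n q, val_cons]; simpa [dg] using e
      · obtain ⟨δ, e⟩ := ih _ (n + 1) (spec hP n).2.1 (ncR c n) ⟨hy, q⟩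
        refine ⟨cons true δ, ?_⟩
        rw [h_Rc hP c n q, val_cons, add_sub_add_left_eq_sub]; exact e
  obtain ⟨δ, -, m⟩ := isCompact_univ.exists_isMinOn univ_nonempty
    (f := fun δ => |h P n y - val n δ|) (continuous_const.sub (val_cont n)).abs.continuousOn
  refine ⟨δ, sub_eq_zero.1 (eq_of_small (n := n) (c := 4) fun k => ?_)⟩
  obtain ⟨z, e⟩ := key k P n hP c hy
  exact le_trans (m (mem_univ z)) e

def Q (Z : Set ℝ) (n : ℕ) (z : ℝ) : Prop :=
  ∃ P c y, PP P ∧ (∀ y ∈ P, c + h P n y ∈ Z) ∧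
    (NC P → ¬ Even n → ∀ y ∈ P, Ab Z n (c + h P n y)) ∧ y ∈ P ∧ z = c + h P n y

theorem q_step {Z : Set ℝ} {n : ℕ} {z : ℝ} (q : Q Z n z) :
    Good Z n z ∨ (Ab Z n z ∧ Q Z (n + 1) z) := by
  obtain ⟨P, c, y, hP, hZ, hA, hy, rfl⟩ := q
  by_cases nc : NC P
  swap
  · left
    obtain ⟨δ₀, e⟩ := can2 hP nc n hy
    refine ⟨δ₀, fun δ => ?_⟩
    obtain ⟨y', hy', e'⟩ := can1 hP nc n δ
    rw [e, add_sub_cancel_right, ← e']; exact hZ _ hy'
  set a := c + h (L P n) (n + 1) (U P n) with ha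
  have uv := UV P n
  have w0 := w_pos P n
  have int : Icc (U P n) (V P n) ⊆ P → Icc a (a + w P n) ⊆ Z := by
    intro hs s hs'
    have s0 : 0 ≤ (s - a) / w P n := div_nonneg (by linarith [hs'.1]) w0.le
    have s1 : (s - a) / w P n ≤ 1 := (div_le_one w0).2 (by linarith [hs'.2])
    have m1 : U P n ≤ U P n + (s - a) / w P n * (V P n - U P n) := by nlinarith
    have m2 : U P n + (s - a) / w P n * (V P n - U P n) ≤ V P n := by nlinarith
    have := hZ _ (hs ⟨m1, m2⟩)
    rw [h_M hP n m1 m2] at this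
    have e : c + (h (L P n) (n + 1) (U P n) + w P n * ((U P n + (s - a) / w P n * (V P n - U P n)
        - U P n) / (V P n - U P n))) = s := by
      have : V P n - U P n ≠ 0 := by linarith
      field_simp
      rw [ha]; ring
    rwa [e] at this
  have r1 := r_succ n
  have r0 := r_pos (n + 1)
  have we : Even n → w P n = 3 * r n := fun e => by unfold w; rw [if_pos nc, if_pos e]
  have ab : Ab Z n (c + h P n y) := by
    by_cases e : Even n
    · refine ab_of (int ((spec hP n).2.2.2.1 nc e)) (we e).ge ?_ ?_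
      · linarith [h_le (L P n) (n + 1) (U P n), h_nn P n y]
      · have := h_rec P n y
        have := h_le (L P n) (n + 1) y
        have := h_le (R P n) (n + 1) y
        have := h_nn (L P n) (n + 1) (U P n)
        have := mul_le_mul_of_nonneg_left (ramp_le (U P n) (V P n) y) w0.le
        linarith
    · exact hA nc e y hy
  have ev : ¬ Even (n + 1) → Even n := fun e => by rw [Nat.even_add_one] at e; exact not_not.1 e
  by_cases c1 : y ≤ U P n
  · refine Or.inr ⟨ab, L P n, c, y, (spec hP n).1, fun y' hy' => ?_, fun k e y' hy' => ?_,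
      ⟨hy, c1⟩, by rw [h_L hP n c1]⟩
    · rw [← h_L hP n hy'.2]; exact hZ _ hy'.1
    · refine ab_of (int ((spec hP n).2.2.2.1 nc (ev e))) (w_ge nc n) ?_ ?_
      · linarith [h_odd k e (U P n), h_nn (L P n) (n + 1) y']
      · linarith [h_odd k e y', h_nn (L P n) (n + 1) (U P n)]
  by_cases c2 : V P n ≤ y
  · refine Or.inr ⟨ab, R P n, a + w P n, y, (spec hP n).2.1, fun y' hy' => ?_,
      fun k e y' hy' => ?_, ⟨hy, c2⟩, by rw [h_R hP n c2, ha]; ring⟩
    · have := hZ _ hy'.1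
      rw [h_R hP n hy'.2] at this
      rwa [ha, add_assoc, add_assoc, ← add_assoc (h _ _ _)]
    · refine ab_of (int ((spec hP n).2.2.2.1 nc (ev e))) (w_ge nc n) ?_ ?_
      · linarith [h_nn (R P n) (n + 1) y']
      · linarith [h_odd k e y']
  left
  have hs : Icc (U P n) (V P n) ⊆ P :=
    (spec hP n).2.2.1.resolve_left fun k => by rcases k y hy with q | q <;> contradiction
  refine good_step ab (good_all (hZ y hy) fun j hj => ?_)
  push Not at c1 c2
  have s0 : 0 ≤ (y - U P n) / (V P n - U P n) := div_nonneg (by linarith) (by linarith)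
  have s1 : (y - U P n) / (V P n - U P n) ≤ 1 := (div_le_one (by linarith)).2 (by linarith)
  have := r_pos j
  refine ab_of (int hs) (by linarith [w_ge nc n, r_anti hj]) ?_ ?_ <;> rw [h_M hP n c1.le c2.le]
  · nlinarith
  · nlinarith

theorem q_good {Z : Set ℝ} {n : ℕ} {z : ℝ} (q : Q Z n z) : Good Z n z := by
  by_contra c
  have key : ∀ k, Q Z (n + k) z ∧ ¬ Good Z (n + k) z := by
    intro k
    induction k with
    | zero => exact ⟨q, c⟩
    | succ k ih =>
      obtain ⟨a, b⟩ := (q_step ih.1).resolve_left ih.2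
      exact ⟨b, fun g => ih.2 (good_step a g)⟩
  obtain ⟨P, d, y, -, hZ, -, hy, e⟩ := q
  refine c (good_all (e ▸ hZ y hy) fun j hj => ?_)
  obtain ⟨k, rfl⟩ := Nat.exists_eq_add_of_le hj
  exact ((q_step (key k).1).resolve_left (key k).2).1

theorem embed {X : Set ℝ} (hX : PP X) : ∀ z ∈ h X 0 '' X, Good (h X 0 '' X) 0 z := by
  rintro _ ⟨y, hy, rfl⟩
  exact q_good ⟨X, 0, y, hX, fun y hy => ⟨y, hy, by rw [zero_add]⟩,
    fun _ e => absurd (by decide) e, hy, by rw [zero_add]⟩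

end Pool.Agent.H.MP_8027ba_an
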