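import Pool.Agent.H.MP_8027ba_an.C

set_option autoImplicit false

namespace Pool.Agent.H.MP_8027ba_an

open Filter Topology Set

theorem t_pos (n : ℕ) : 0 < t n := by have := r_pos n; unfold t; positivity

theorem assemble {Z : Set ℝ} (hne : Z.Nonempty) (hc : IsCompact Z) (g : ∀ z ∈ Z, Good Z 0 z) :
    ∃ (K : ℕ → Set ℝ) (c₀ : ℝ),
      (∀ i, IsCompact (K i) ∧ 0 ∈ K i ∧ K i ⊆ Ici 0 ∧ 0 < Metric.diam (K i)) ∧
      Summable (fun i => Metric.diam (K i)) ∧
      ∀ s, (∃ x : ℕ → ℝ, (∀ j, x j ∈ K j) ∧ HasSum x s) ↔ s + c₀ ∈ Z := by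
  classical
  let B : Set ℝ := {c | ∀ δ, c + val 1 δ ∈ Z}
  have v0 : val 1 (fun _ => false) = 0 := by simp [val, dg]
  have BZ : B ⊆ Z := fun c hc => by simpa [v0] using hc fun _ => false
  have Bc : IsCompact B := hc.of_isClosed_subset (by
    simp only [B, setOf_forall]
    exact isClosed_iInter fun δ => hc.isClosed.preimage (f := fun c => c + val 1 δ) (by fun_prop)) BZ
  have mem : ∀ z δ₀, (∀ δ, z - val 0 δ₀ + val 0 δ ∈ Z) → ∀ b, z - val 0 δ₀ + dg b 0 ∈ B := by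
    intro z δ₀ h b δ
    have := h (cons b δ)
    rwa [val_cons, ← add_assoc] at this
  obtain ⟨z₀, hz₀⟩ := hne
  obtain ⟨δ₀, h₀⟩ := g z₀ hz₀
  obtain ⟨c₀, hc₀, hc₀'⟩ := Bc.exists_isLeast ⟨_, mem z₀ δ₀ h₀ false⟩
  let K : ℕ → Set ℝ := fun i => Nat.casesOn i ((fun c => c - c₀) '' B) fun j => {0, t (1 + j)}
  have K0 : IsCompact (K 0) := Bc.image (by fun_prop)
  have dm : ∀ j, Metric.diam (K (j + 1)) = t (1 + j) := fun j => by
    show Metric.diam ({0, t (1 + j)} : Set ℝ) = _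
    rw [Metric.diam_pair, Real.dist_eq, zero_sub, abs_neg, abs_of_pos (t_pos _)]
  refine ⟨K, c₀, fun i => ?_, ?_, fun s => ⟨?_, fun hs => ?_⟩⟩
  · cases i with
    | zero =>
      refine ⟨K0, ⟨c₀, hc₀, sub_self _⟩, ?_, ?_⟩
      · rintro _ ⟨c, hc, rfl⟩; exact sub_nonneg.2 (hc₀' hc)
      · refine lt_of_lt_of_le ?_ (Metric.dist_le_diam_of_mem K0.isBounded
          ⟨_, mem z₀ δ₀ h₀ true, rfl⟩ ⟨_, mem z₀ δ₀ h₀ false, rfl⟩)
        rw [dist_pos]
        have := t_pos 0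
        simp only [dg, if_true, Bool.false_eq_true, if_false]
        intro e; linarith
    | succ j =>
      refine ⟨(Set.toFinite ({0, t (1 + j)} : Set ℝ)).isCompact, Or.inl rfl, ?_,
        by rw [dm]; exact t_pos _⟩
      rintro _ (rfl | rfl)
      · exact mem_Ici.2 le_rfl
      · exact (t_pos _).le
  · rw [← summable_nat_add_iff 1]
    simp only [dm]; exact (hs_t 1).summable
  · rintro ⟨x, hx, hs⟩
    obtain ⟨c, hc, e⟩ := hx 0
    let δ : ℕ → Bool := fun j => decide (x (j + 1) ≠ 0)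
    have ex : ∀ j, x (j + 1) = dg (δ j) (1 + j) := fun j => by
      rcases hx (j + 1) with q | q
      · simp [δ, dg, q]
      · have q' : x (j + 1) = t (1 + j) := q
        simp [δ, dg, q', (t_pos (1 + j)).ne']
    have := hs.summable.tsum_eq_zero_add
    rw [hs.tsum_eq] at this
    simp only [ex] at this
    have m := hc δ
    rwa [show c + val 1 δ = s + c₀ by rw [this, ← e]; unfold val; ring] at m
  · obtain ⟨δ₁, h₁⟩ := g _ hs
    refine ⟨fun i => Nat.casesOn i (s + c₀ - val 0 δ₁ + dg (δ₁ 0) 0 - c₀)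
      fun j => dg (δ₁ (j + 1)) (1 + j), fun j => ?_, ?_⟩
    · cases j with
      | zero => exact ⟨_, mem _ δ₁ h₁ _, rfl⟩
      | succ j =>
        show dg (δ₁ (j + 1)) (1 + j) ∈ ({0, t (1 + j)} : Set ℝ)
        cases δ₁ (j + 1) <;> simp [dg]
    · rw [← hasSum_nat_add_iff' 1]
      have := (sm_dg 1 fun j => δ₁ (j + 1)).hasSum
      have e := val_succ 0 δ₁
      rw [zero_add] at e
      simp only [Finset.range_one, Finset.sum_singleton]
      show HasSum (fun n => dg (δ₁ (n + 1)) (1 + n)) (s - (s + c₀ - val 0 δ₁ + dg (δ₁ 0) 0 - c₀))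
      rwa [show s - (s + c₀ - val 0 δ₁ + dg (δ₁ 0) 0 - c₀) = ∑' j, dg (δ₁ (j + 1)) (1 + j) by
        rw [e]; unfold val; ring]

end Pool.Agent.H.MP_8027ba_an
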